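import Pool.Agent.Run7.h553.Emp.All

/-! Heawood's bound for `m`-empire maps (`m ≥ 2`) is attained on every orientable surface of genus
at least one and on every nonorientable surface except at most two for each value of the bound. -/

open Run7.B243 in
theorem Pool.Agent.Results.MP_1b7c1f_co.AllOrientable.result (m : ℕ) (hm : 2 ≤ m) :
    (∀ g : ℕ, 1 ≤ g → Necessary (Surface.S g) m) ∧
    (∀ k : ℕ, 1 ≤ k → H ((Surface.N k).euler + 1) m = H (Surface.N k).euler m →
      (Even (Surface.N k).euler →
        H ((Surface.N k).euler + 2) m = H (Surface.N k).euler m) →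
      Necessary (Surface.N k) m) ∧
    (∀ G : ℕ, Nat.card {k : ℕ // k ≤ G ∧ ¬ Necessary (Surface.N k) m} ≤
      2 * Nat.sqrt (6 * G) + 3) :=
  ⟨fun g hg => Run7.h553.Emp.orientable Run7.h553.Emp.allOpt g m hm hg,
    fun k hk h1 h2 => Run7.h553.Emp.nonorientable Run7.h553.Emp.allOpt k m hm hk h1 h2,
    fun G => Run7.h553.Emp.count Run7.h553.Emp.allOpt m G hm⟩
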